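import Pool.Agent.N20.EW.Stm
import Pool.Agent.R674.KB.Dz

/-!
# Project EW: uniqueness in the Dade-Glauberman-Nagao correspondence
-/

set_option autoImplicit false

open scoped Classical BigOperators

noncomputable section

namespace Pool.Agent.N34.EWD3

open Pool.Agent.Y63.NV
open Pool.Agent.Y63.KR
open Pool.Agent.Y63.AWC (IsIrreducibleCharacter)
open Pool.Agent.Y286.NV (centralValue_comp irr_class)
open Pool.Agent.N20.AE (SubD Sit S_ZE)
open Pool.Agent.N20.EW (CQ Rel S_DF S_SY S_D3)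
open Pool.Agent.R674.KB (dz_unique)

theorem mem_cs {K : Type} [Group K] {k x : K} {P : Subgroup K} :
    x ∈ conjSub k P ↔ ∃ y ∈ P, k * y * k⁻¹ = x := by
  unfold conjSub
  rw [Subgroup.mem_map]
  rfl

section ext

variable {p : ℕ} {F : Type} [Field F] {G K : Type} [Group G] [Group K] (i : G →* K)
  (Q : Subgroup K)

/-- `y` is an element with a `p'`-centraliser conjugate to `g` -/
def Pr (p : ℕ) (g : G) (y : CQ i Q) : Prop :=
  ¬ p ∣ Nat.card ↥(Subgroup.centralizer {y}) ∧ ∃ k ∈ i.range ⊔ Q, i y = k * i g * k⁻¹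

/-- the extension of a class function of the centraliser -/
def ext (p : ℕ) (u : CQ i Q → F) (g : G) : F :=
  if h : ∃ y : CQ i Q, Pr i Q p g y then u h.choose else 0

theorem ext_zero {u : CQ i Q → F} {g : G} (h : ¬ ∃ y : CQ i Q, Pr i Q p g y) :
    ext i Q p u g = 0 := by
  unfold ext
  rw [dif_neg h]

theorem Pr_trans {g g' : G} {y : CQ i Q} (h : Pr i Q p g y) {k : K} (hk : k ∈ i.range ⊔ Q)
    (hg : i g' = k * i g * k⁻¹) : Pr i Q p g' y := by
  obtain ⟨h1, k1, hk1, e1⟩ := h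
  refine ⟨h1, k1 * k⁻¹, mul_mem hk1 (inv_mem hk), ?_⟩
  rw [e1, hg]
  group

variable (hSY : ∀ y : CQ i Q, ¬ p ∣ Nat.card ↥(Subgroup.centralizer {y}) → ∀ y' : CQ i Q,
  (∃ k ∈ i.range ⊔ Q, i y' = k * i y * k⁻¹) → IsConj y y') {u : CQ i Q → F} (hu : IsClassFun u)
  (hs : ∀ x, u x ≠ 0 → ¬ p ∣ Nat.card ↥(Subgroup.centralizer {x}))

include hSY hu in
theorem ext_eq {g : G} {y : CQ i Q} (h : Pr i Q p g y) : ext i Q p u g = u y := by
  have hex : ∃ y : CQ i Q, Pr i Q p g y := ⟨y, h⟩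
  unfold ext
  rw [dif_pos hex]
  obtain ⟨h1, k1, hk1, e1⟩ := h
  obtain ⟨h2, k2, hk2, e2⟩ := hex.choose_spec
  obtain ⟨c, hc⟩ := isConj_iff.1 (hSY y h1 hex.choose ⟨k2 * k1⁻¹, mul_mem hk2 (inv_mem hk1), by
    rw [e2, e1]; group⟩)
  rw [← hc, hu]

include hSY hu in
theorem ext_inv {g g' : G} {k : K} (hk : k ∈ i.range ⊔ Q) (hg : i g' = k * i g * k⁻¹) :
    ext i Q p u g' = ext i Q p u g := by
  by_cases h : ∃ y : CQ i Q, Pr i Q p g y
  · obtain ⟨y, hy⟩ := h
    rw [ext_eq i Q hSY hu hy, ext_eq i Q hSY hu (Pr_trans i Q hy hk hg)]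
  · have h' : ¬ ∃ y : CQ i Q, Pr i Q p g' y := by
      rintro ⟨y, hy⟩
      refine h ⟨y, Pr_trans i Q hy (inv_mem hk) ?_⟩
      rw [hg]
      group
    rw [ext_zero i Q h, ext_zero i Q h']

include hSY hu hs in
theorem ext_res (x : CQ i Q) : ext i Q p u x = u x := by
  by_cases h : ∃ y : CQ i Q, Pr i Q p x y
  · obtain ⟨y, hy⟩ := h
    rw [ext_eq i Q hSY hu hy]
    obtain ⟨h1, k, hk, e⟩ := hy
    obtain ⟨c, hc⟩ := isConj_iff.1 (hSY y h1 x ⟨k⁻¹, inv_mem hk, by rw [e]; group⟩)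
    rw [← hc, hu]
  · rw [ext_zero i Q h]
    by_contra hne
    exact h ⟨x, hs x (Ne.symm hne), 1, one_mem _, by simp⟩

include hSY hu in
theorem ext_cl : IsClassFun (ext i Q p u) := by
  intro g x
  refine ext_inv i Q hSY hu (k := i g) (Subgroup.mem_sup_left ⟨g, rfl⟩) ?_
  rw [map_mul, map_mul, map_inv]

end ext

section grp

theorem not_dvd {p : ℕ} [Fact p.Prime] {H : Type} [Group H] [Finite H] {x : H}
    (h : SubD p (⊥ : Subgroup H) x) : ¬ p ∣ Nat.card ↥(Subgroup.centralizer {x}) := by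
  intro hd
  obtain ⟨c, hc⟩ := exists_prime_orderOf_dvd_card' p hd
  have hP : IsPGroup p (Subgroup.zpowers (c : H)) := by
    refine IsPGroup.iff_card.2 ⟨1, ?_⟩
    rw [Nat.card_zpowers, Subgroup.orderOf_coe, hc, pow_one]
  obtain ⟨g, hg⟩ := h _ hP (by rw [Subgroup.zpowers_le]; exact c.2)
  have h1 : g * c * g⁻¹ ∈ (⊥ : Subgroup H) := hg (mem_cs.2 ⟨c, Subgroup.mem_zpowers _, rfl⟩)
  rw [Subgroup.mem_bot] at h1
  have h2 : (c : H) = 1 := by
    have h3 : (c : H) = g⁻¹ * (g * c * g⁻¹) * g := by group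
    rw [h3, h1]
    group
  have h3 : c = 1 := Subtype.ext h2
  rw [h3, orderOf_one] at hc
  exact (Fact.out : p.Prime).one_lt.ne hc

variable {G K : Type} [Group G] [Group K] (i : G →* K) (hi : Function.Injective i)
  (hn : i.range.Normal)

/-- conjugation -/
def cE (k : K) : G ≃* G :=
  ((MonoidHom.ofInjective hi).trans (@MulAut.conjNormal K _ i.range hn k)).trans
    (MonoidHom.ofInjective hi).symm

theorem cE_spec (k : K) (x : G) : i (cE i hi hn k x) = k * i x * k⁻¹ := by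
  unfold cE
  rw [MulEquiv.trans_apply, MulEquiv.trans_apply, MonoidHom.apply_ofInjective_symm,
    MulAut.conjNormal_apply, MonoidHom.ofInjective_apply]

include hi hn in
theorem cv_inv {F : Type} [Field F] [Finite G] (red : integralClosure ℤ ℂ →+* F) {ψ : G → ℂ}
    (hψ : IsIrreducibleCharacter ψ) {k : K} (hk : ∀ x y : G, i y = k * i x * k⁻¹ → ψ y = ψ x)
    {f f' : G → F} (hf : IsClassFun f) (hff : ∀ x y : G, i y = k * i x * k⁻¹ → f' y = f x) :
    centralValue red ψ f' = centralValue red ψ f := by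
  have h1 : (fun x => ψ (cE i hi hn k x)) = ψ := funext fun x => hk x _ (cE_spec i hi hn k x)
  have h2 : (fun x => f' (cE i hi hn k x)) = f := funext fun x => hff x _ (cE_spec i hi hn k x)
  have h2' : ∀ x, f' (cE i hi hn k x) = f x := fun x => congrFun h2 x
  have hf' : IsClassFun f' := by
    intro g x
    obtain ⟨g0, rfl⟩ := (cE i hi hn k).surjective g
    obtain ⟨x0, rfl⟩ := (cE i hi hn k).surjective x
    rw [← map_inv, ← map_mul, ← map_mul, h2', h2', hf]
  have h3 := centralValue_comp red (cE i hi hn k) ψ (irr_class hψ) f' hf'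
  rw [h1, h2] at h3
  exact h3.symm

include hi hn in
theorem psi_inv {Q : Subgroup K} {ψ : G → ℂ} (hcl : ∀ a b : G, IsConj a b → ψ a = ψ b)
    (hQ : ∀ q ∈ Q, ∀ x y : G, i y = q * i x * q⁻¹ → ψ y = ψ x) {k : K}
    (hk : k ∈ i.range ⊔ Q) : ∀ x y : G, i y = k * i x * k⁻¹ → ψ y = ψ x := by
  intro x y hxy
  obtain ⟨_, ⟨g, rfl⟩, q, hq, rfl⟩ := Subgroup.mem_sup_of_normal_left.1 hk
  obtain ⟨w, hw⟩ := hn.conj_mem (i x) ⟨x, rfl⟩ q
  rw [← hQ q hq x w hw]
  refine (hcl w y (isConj_iff.2 ⟨g, hi ?_⟩)).symm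
  rw [map_mul, map_mul, map_inv, hxy, hw]
  group

end grp

theorem exists_u (h1 : S_DF) (h3 : S_ZE) (p : ℕ) [Fact p.Prime] (F : Type) [Field F]
    [IsAlgClosed F] [CharP F p] (red : integralClosure ℤ ℂ →+* F) (C : Type) [Group C] [Finite C]
    {θ : C → ℂ} (hθ : IsWt p (⊥ : Subgroup C) θ) :
    ∃ u : C → F, IsClassFun u ∧ (∀ x, u x ≠ 0 → ¬ p ∣ Nat.card ↥(Subgroup.centralizer {x})) ∧
      centralValue red θ u = 1 ∧ ∀ B' : (C → F) → F, IsBlock B' → B' u = 1 →
        ∀ f : C → F, IsClassFun f → B' f = centralValue red θ f := by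
  obtain ⟨hb, hd⟩ := (h1 p F red C).1 θ hθ
  obtain ⟨u, hu⟩ := h3 p F C C (MonoidHom.id C) (centralValue red θ) ⊥ (fun _ _ h => h)
    ⟨fun a _ b => ⟨b * a * b⁻¹, rfl⟩⟩ hb hd (by
      intro k f f' hf h
      have hff : f' = f := by
        funext y
        have e1 := h (k⁻¹ * y * k) y (by simp only [MonoidHom.id_apply]; group)
        have e2 := hf k⁻¹ y
        rw [inv_inv] at e2
        rw [e1, e2]
      rw [hff])
  exact ⟨u, hu.cl, fun x hx => not_dvd (hu.ideal x hx), hu.one, hu.sep⟩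

theorem card_eq {K : Type} [Group K] {N Q : Subgroup K} (hN : N.Normal) (h : Q ⊓ N = ⊥) :
    Nat.card Q = N.relIndex (N ⊔ Q) := by
  rw [Subgroup.relIndex_sup_left, ← Subgroup.inf_relIndex_right, inf_comm, h,
    Subgroup.relIndex_bot_left]

theorem D3 (h1 : S_DF) (h2 : S_SY) (h3 : S_ZE) : S_D3 := by
  intro p _ F _ _ _ red G K _ _ _ _ i hi hn Q hQ hQG ψ θ hψ hψQ hθ hR
  have hfG : Fintype G := Fintype.ofFinite G
  have hSY : ∀ Q : Subgroup K, IsPGroup p Q → Q ⊓ i.range = ⊥ →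
      ∀ y : CQ i Q, ¬ p ∣ Nat.card ↥(Subgroup.centralizer {y}) → ∀ y' : CQ i Q,
      (∃ k ∈ i.range ⊔ Q, i y' = k * i y * k⁻¹) → IsConj y y' := fun Q hQ hQG y hy =>
    (h2 p G K i hi hn Q hQ hQG y hy).2.2
  refine ⟨?_, ?_, ?_⟩
  · intro ψ' hψ' hψQ' hR'
    obtain ⟨hb, hd⟩ := (h1 p F red G).1 ψ hψ
    obtain ⟨S, hS⟩ : ∃ S, S = i.range ⊔ Q := ⟨_, rfl⟩
    have hle : i.range ≤ S := by rw [hS]; exact le_sup_left
    have hleQ : Q ≤ S := by rw [hS]; exact le_sup_right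
    let i' : G →* S := i.codRestrict S (fun x => hle ⟨x, rfl⟩)
    have hi' : Function.Injective i' := fun x y h => hi (congrArg Subtype.val h)
    have hn' : i'.range.Normal := ⟨fun a ha b => by
      obtain ⟨x, rfl⟩ := ha
      obtain ⟨w, hw⟩ := hn.conj_mem (i x) ⟨x, rfl⟩ (b : K)
      exact ⟨w, Subtype.ext hw⟩⟩
    obtain ⟨z, hz⟩ := h3 p F G S i' (centralValue red ψ) ⊥ hi' hn' hb hd (by
      intro k f f' hf hff
      exact cv_inv i hi hn red hψ.irr (psi_inv i hi hn (irr_class hψ.irr) hψQ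
        (k := (k : K)) (by rw [← hS]; exact k.2)) hf (fun x y h => hff x y (Subtype.ext h)))
    have hcl : IsClassFun (fun x => z (i' x)) := fun g x => by
      change z (i' (g * x * g⁻¹)) = z (i' x)
      rw [map_mul, map_mul, map_inv]
      exact hz.cl _ _
    have hQi : ∀ q ∈ Q, ∀ x y : G, i y = q * i x * q⁻¹ → z (i' y) = z (i' x) := by
      intro q hq x y h
      have h4 : i' y = (⟨q, hleQ hq⟩ : S) * i' x * (⟨q, hleQ hq⟩ : S)⁻¹ := Subtype.ext h
      rw [h4]
      exact hz.cl _ _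
    have e1 := hR _ hcl hQi
    have e2 := hR' _ hcl hQi
    have e3 : centralValue red ψ' (fun x => z (i' x)) = 1 := by
      rw [e2, ← e1]
      exact hz.one
    have e4 := hz.sep _ ((h1 p F red G).1 ψ' hψ').1 e3
    exact dz_unique red hψ hψ'.irr e4
  · intro θ' hθ' hR'
    obtain ⟨u, hu, hs, hu1, hsep⟩ := exists_u h1 h3 p F red (CQ i Q) hθ
    have hSQ := hSY Q hQ hQG
    have hres : (fun x : CQ i Q => ext i Q p u x) = u :=
      funext fun x => ext_res i Q hSQ hu hs x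
    have e1 := hR (ext i Q p u) (ext_cl i Q hSQ hu) (fun q hq x y h =>
      ext_inv i Q hSQ hu (Subgroup.mem_sup_right hq) h)
    have e2 := hR' (ext i Q p u) (ext_cl i Q hSQ hu) (fun q hq x y h =>
      ext_inv i Q hSQ hu (Subgroup.mem_sup_right hq) h)
    rw [hres] at e1 e2
    have e3 : centralValue red θ' u = 1 := by rw [← e2, e1, hu1]
    have hfC : Fintype (CQ i Q) := Fintype.ofFinite _
    exact dz_unique red hθ hθ'.irr (hsep _ ((h1 p F red (CQ i Q)).1 θ' hθ').1 e3)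
  · intro Q' hQ' hQG' hsup θ' hθ' hR'
    obtain ⟨u, hu, hs, hu1, -⟩ := exists_u h1 h3 p F red (CQ i Q') hθ'
    have hSQ := hSY Q' hQ' hQG'
    have hres : (fun x : CQ i Q' => ext i Q' p u x) = u :=
      funext fun x => ext_res i Q' hSQ hu hs x
    have e2 := hR' (ext i Q' p u) (ext_cl i Q' hSQ hu) (fun q hq x y h =>
      ext_inv i Q' hSQ hu (Subgroup.mem_sup_right hq) h)
    have e1 := hR (ext i Q' p u) (ext_cl i Q' hSQ hu) (fun q hq x y h =>
      ext_inv i Q' hSQ hu (by rw [hsup]; exact Subgroup.mem_sup_right hq) h)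
    rw [hres, hu1] at e2
    rw [e2] at e1
    -- an element of the centraliser
    obtain ⟨c, hc⟩ : ∃ c : CQ i Q, ext i Q' p u c ≠ 0 := by
      by_contra hcon
      push Not at hcon
      have h4 : centralValue red θ (fun x : CQ i Q => ext i Q' p u x) = 0 := by
        unfold centralValue
        refine finsum_eq_zero_of_forall_eq_zero fun C => ?_
        have h5 := hcon C.out
        change ext i Q' p u (C.out : CQ i Q) * _ = 0
        rw [h5, zero_mul]
      rw [h4] at e1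
      exact one_ne_zero e1
    obtain ⟨y, hy, k, hk, hyk⟩ : ∃ y : CQ i Q', Pr i Q' p c y := by
      by_contra hcon
      exact hc (ext_zero i Q' hcon)
    -- the conjugate of `Q`
    have hkS : k ∈ i.range ⊔ Q' := hk
    have hP1 : IsPGroup p (conjSub k Q) := hQ.map _
    have hP2 : conjSub k Q ≤ i.range ⊔ Q' := by
      intro x hx
      obtain ⟨q, hq, rfl⟩ := mem_cs.1 hx
      exact mul_mem (mul_mem hk (by rw [hsup]; exact Subgroup.mem_sup_right hq)) (inv_mem hk)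
    have hP3 : conjSub k Q ≤ Subgroup.centralizer {i y} := by
      intro x hx
      obtain ⟨q, hq, rfl⟩ := mem_cs.1 hx
      rw [Subgroup.mem_centralizer_singleton_iff, hyk]
      have h4 : q * i c = i c * q := (Subgroup.mem_centralizer_iff.1 c.2) q hq
      calc k * q * k⁻¹ * (k * i c * k⁻¹) = k * (q * i c) * k⁻¹ := by group
        _ = k * (i c * q) * k⁻¹ := by rw [h4]
        _ = k * i c * k⁻¹ * (k * q * k⁻¹) := by group
    obtain ⟨k', hk', hle⟩ := (h2 p G K i hi hn Q' hQ' hQG' y hy).2.1 _ hP1 hP2 hP3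
    have hcard : Nat.card Q = Nat.card Q' := by
      rw [card_eq hn hQG, card_eq hn hQG', hsup]
    have hm : conjSub (k' * k) Q = Q' := by
      refine Subgroup.eq_of_le_of_card_ge (by rw [conjSub_mul]; exact hle) ?_
      rw [← hcard]
      unfold conjSub
      rw [Subgroup.card_map_of_injective (MulEquiv.injective _)]
    have hmS : k' * k ∈ i.range ⊔ Q := by
      rw [← hsup]
      exact mul_mem hk'.1 hk
    obtain ⟨_, ⟨g, rfl⟩, q, hq, hgq⟩ := Subgroup.mem_sup_of_normal_left.1 hmS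
    refine ⟨g, ?_⟩
    rw [← hm, ← hgq, conjSub_mul]
    congr 1
    ext x
    rw [mem_cs]
    constructor
    · rintro ⟨y, hy, rfl⟩
      exact mul_mem (mul_mem hq hy) (inv_mem hq)
    · intro hx
      exact ⟨q⁻¹ * x * q, mul_mem (mul_mem (inv_mem hq) hx) hq, by group⟩

end Pool.Agent.N34.EWD3
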