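import Pool.Agent.N753.SU.Stm
import Pool.Agent.N753.SF.Sep
import Pool.Agent.N753.LS.Ht

/-!
# Two different components of a divisor on `P¹ × P¹` meet over few primes
-/

set_option autoImplicit false

namespace Pool.Agent.N34.SUO

open NumberField IsDedekindDomain Finset Pool.Agent.H691R3
open Pool.Agent.TH876.Loc hiding mx
open Pool.Agent.N753.LS Pool.Agent.N753.SF Pool.Agent.N753.SU Polynomial Height

/-! ### Bézout -/

section bezout

variable {K : Type} [Field K]

/-- clearing denominators -/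
theorem clear {L : Type} [Field L] [Algebra K[X] L] [IsFractionRing K[X] L] (a : L[X]) :
    ∃ (m : K[X]) (A : K[X][X]), m ≠ 0 ∧
      A.map (algebraMap K[X] L) = C (algebraMap K[X] L m) * a := by
  obtain ⟨m, hm0, hm⟩ := IsLocalization.integerNormalization_spec (nonZeroDivisors K[X]) a
  refine ⟨m, IsLocalization.integerNormalization (nonZeroDivisors K[X]) a,
    nonZeroDivisors.ne_zero hm0, ?_⟩
  ext i
  rw [hm, coeff_smul, coeff_C_mul, Algebra.smul_def]

theorem coprime_frac (F G : K[X][X]) (hF : Irreducible F) (hG : Irreducible G)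
    (hFG : ¬ Associated F G) (hd : 1 ≤ F.natDegree) :
    IsCoprime (F.map (algebraMap K[X] (FractionRing K[X])))
      (G.map (algebraMap K[X] (FractionRing K[X]))) := by
  have hFp : F.IsPrimitive := hF.isPrimitive (by omega)
  have hF' : Irreducible (F.map (algebraMap K[X] (FractionRing K[X]))) :=
    (hFp.irreducible_iff_irreducible_map_fraction_map).1 hF
  have hinj : Function.Injective (algebraMap K[X] (FractionRing K[X])) :=
    IsFractionRing.injective K[X] (FractionRing K[X])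
  rw [hF'.coprime_iff_not_dvd]
  intro hdvd
  rcases Nat.eq_zero_or_pos G.natDegree with h0 | h0
  · have h1 : G.map (algebraMap K[X] (FractionRing K[X])) ≠ 0 := by
      rw [Ne, Polynomial.map_eq_zero_iff hinj]
      exact hG.ne_zero
    have h2 := natDegree_le_of_dvd hdvd h1
    rw [natDegree_map_eq_of_injective hinj, natDegree_map_eq_of_injective hinj] at h2
    omega
  · have hGp : G.IsPrimitive := hG.isPrimitive (by omega)
    have h1 : F ∣ G := hFp.dvd_of_fraction_map_dvd_fraction_map hdvd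
    exact hFG (hF.associated_of_dvd hG h1)

theorem bezout (F G : K[X][X]) (hF : Irreducible F) (hG : Irreducible G)
    (hFG : ¬ Associated F G) (hd : 1 ≤ F.natDegree) :
    ∃ (A B : K[X][X]) (R : K[X]), R ≠ 0 ∧ A * F + B * G = C R := by
  obtain ⟨a, b, hab⟩ := coprime_frac F G hF hG hFG hd
  obtain ⟨m, A, hm, hA⟩ := clear (K := K) (L := FractionRing K[X]) a
  obtain ⟨n, B, hn, hB⟩ := clear (K := K) (L := FractionRing K[X]) b
  refine ⟨C n * A, C m * B, m * n, mul_ne_zero hm hn, ?_⟩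
  apply Polynomial.map_injective (algebraMap K[X] (FractionRing K[X]))
    (IsFractionRing.injective K[X] (FractionRing K[X]))
  rw [Polynomial.map_add, Polynomial.map_mul, Polynomial.map_mul, Polynomial.map_mul,
    Polynomial.map_mul, Polynomial.map_C, Polynomial.map_C, Polynomial.map_C, hA, hB, map_mul,
    C_mul]
  linear_combination (C (algebraMap K[X] (FractionRing K[X]) m) *
    C (algebraMap K[X] (FractionRing K[X]) n)) * hab

end bezout

variable {K : Type} [Field K] [NumberField K]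

/-! ### heights -/

/-- the height of the value of a polynomial -/
theorem height_eval (f : K[X]) : ∃ C : ℝ, 0 ≤ C ∧ ∀ x : K,
    logHeight₁ (f.eval x) ≤ C * (1 + logHeight₁ x) := by
  induction f using Polynomial.induction_on' with
  | add p q hp hq =>
    obtain ⟨C, hC, h1⟩ := hp
    obtain ⟨D, hD, h2⟩ := hq
    have hw : 0 ≤ (totalWeight K : ℝ) * Real.log 2 :=
      mul_nonneg (Nat.cast_nonneg _) (Real.log_nonneg (by norm_num))
    refine ⟨C + D + totalWeight K * Real.log 2, by positivity, fun x => ?_⟩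
    rw [eval_add]
    refine (logHeight₁_add_le _ _).trans ?_
    have h3 := h1 x
    have h4 := h2 x
    have h5 := zero_le_logHeight₁ x
    nlinarith
  | monomial n a =>
    refine ⟨logHeight₁ a + n, by
      have := zero_le_logHeight₁ a
      positivity, fun x => ?_⟩
    rw [eval_monomial]
    refine (logHeight₁_mul_le _ _).trans ?_
    rw [logHeight₁_pow]
    have h5 := zero_le_logHeight₁ x
    have h6 := zero_le_logHeight₁ a
    have h7 : (0 : ℝ) ≤ n := Nat.cast_nonneg _
    nlinarith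

theorem sum_big (z : K) (T : Finset (Pr K)) (h : ∀ v ∈ T, 1 < fv v z) :
    ∑ v ∈ T, Real.log (Nv v) ≤ logHeight₁ z :=
  (Finset.sum_le_sum fun v hv => log_fv_ge v (h v hv)).trans (fin_le_hr z T)

theorem sum_small {z : K} (hz : z ≠ 0) (T : Finset (Pr K)) (h : ∀ v ∈ T, fv v z < 1) :
    ∑ v ∈ T, Real.log (Nv v) ≤ logHeight₁ z := by
  rw [← logHeight₁_inv]
  refine sum_big _ T fun v hv => ?_
  rw [map_inv₀]
  exact (one_lt_inv₀ ((fv v).pos hz)).2 (h v hv)

theorem fin_big (z : K) : {v : Pr K | 1 < fv v z}.Finite := by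
  rcases eq_or_ne z 0 with rfl | hz
  · refine Set.finite_empty.subset ?_
    intro v hv
    have h : 1 < fv v 0 := hv
    rw [map_zero] at h
    exact absurd h (by norm_num)
  · refine (fv_support_finite hz).subset ?_
    intro v hv
    have h : 1 < fv v z := hv
    exact h.ne'

theorem fin_small {z : K} (hz : z ≠ 0) : {v : Pr K | fv v z < 1}.Finite := by
  refine (fv_support_finite hz).subset ?_
  intro v hv
  have h : fv v z < 1 := hv
  exact h.ne

/-! ### integral polynomials -/

/-- all coefficients are integral at `v` -/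
def In1 (v : Pr K) (p : K[X]) : Prop := ∀ j, fv v (p.coeff j) ≤ 1

/-- all coefficients are integral at `v` -/
def In2 (v : Pr K) (P : K[X][X]) : Prop := ∀ i, In1 v (P.coeff i)

theorem fin_In2 (P : K[X][X]) : {v : Pr K | ¬ In2 v P}.Finite := by
  classical
  have h : {v : Pr K | ¬ In2 v P} ⊆
      ⋃ i ∈ P.support, ⋃ j ∈ (P.coeff i).support, {v : Pr K | 1 < fv v ((P.coeff i).coeff j)} := by
    intro v hv
    have hv' : ¬ In2 v P := hv
    unfold In2 In1 at hv'
    push Not at hv'
    obtain ⟨i, j, hij⟩ := hv'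
    have h1 : (P.coeff i).coeff j ≠ 0 := by
      intro h0
      rw [h0, map_zero] at hij
      linarith
    have h2 : P.coeff i ≠ 0 := by
      intro h0
      rw [h0, coeff_zero] at h1
      exact h1 rfl
    simp only [Set.mem_iUnion]
    exact ⟨i, mem_support_iff.2 h2, j, mem_support_iff.2 h1, hij⟩
  refine Set.Finite.subset ?_ h
  refine Set.Finite.biUnion (Finset.finite_toSet _) fun i _ => ?_
  exact Set.Finite.biUnion (Finset.finite_toSet _) fun j _ => fin_big _

theorem fv_eval1 {v : Pr K} {p : K[X]} (hp : In1 v p) {y : K} (hy : fv v y ≤ 1) :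
    fv v (p.eval y) ≤ 1 := by
  rw [eval_eq_sum_range]
  refine fv_sum_le v _ _ 1 zero_le_one fun i _ => ?_
  rw [map_mul, map_pow]
  have h1 := hp i
  have h2 : fv v y ^ i ≤ 1 := pow_le_one₀ ((fv v).nonneg y) hy
  have h3 := (fv v).nonneg (p.coeff i)
  have h4 : 0 ≤ fv v y ^ i := pow_nonneg ((fv v).nonneg y) i
  nlinarith

omit [NumberField K] in
theorem evalEval_sum (P : K[X][X]) (y x : K) :
    P.evalEval y x = ∑ i ∈ range (P.natDegree + 1), (P.coeff i).eval y * x ^ i := by
  have h : P.eval (C x) = ∑ i ∈ range (P.natDegree + 1), P.coeff i * (C x) ^ i :=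
    eval_eq_sum_range (C x)
  unfold Polynomial.evalEval
  rw [h, eval_finsetSum]
  refine Finset.sum_congr rfl fun i _ => ?_
  rw [eval_mul, eval_pow, eval_C]

theorem fv_eval2 {v : Pr K} {P : K[X][X]} (hP : In2 v P) {y x : K} (hy : fv v y ≤ 1)
    (hx : fv v x ≤ 1) : fv v (P.evalEval y x) ≤ 1 := by
  rw [evalEval_sum]
  refine fv_sum_le v _ _ 1 zero_le_one fun i _ => ?_
  rw [map_mul, map_pow]
  have h1 := fv_eval1 (hP i) hy
  have h2 : fv v x ^ i ≤ 1 := pow_le_one₀ ((fv v).nonneg x) hx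
  have h3 := (fv v).nonneg ((P.coeff i).eval y)
  have h4 : 0 ≤ fv v x ^ i := pow_nonneg ((fv v).nonneg x) i
  nlinarith

/-- the leading term dominates -/
theorem fv_top {v : Pr K} {P : K[X][X]} (hP : In2 v P) {y x : K} (hy : fv v y ≤ 1)
    (hl : fv v (P.leadingCoeff.eval y) = 1) (hx : 1 < fv v x) :
    fv v (P.evalEval y x) = fv v x ^ P.natDegree := by
  rw [evalEval_sum, Finset.sum_range_succ]
  have htop : fv v ((P.coeff P.natDegree).eval y * x ^ P.natDegree) = fv v x ^ P.natDegree := by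
    rw [map_mul, map_pow]
    have : fv v ((P.coeff P.natDegree).eval y) = 1 := hl
    rw [this, one_mul]
  rcases Nat.eq_zero_or_pos P.natDegree with h0 | h0
  · rw [h0] at htop ⊢
    rw [Finset.sum_range_zero, zero_add]
    exact htop
  · have hlow : fv v (∑ i ∈ range P.natDegree, (P.coeff i).eval y * x ^ i) ≤
        fv v x ^ (P.natDegree - 1) := by
      refine fv_sum_le v _ _ _ (pow_nonneg ((fv v).nonneg x) _) fun i hi => ?_
      rw [Finset.mem_range] at hi
      rw [map_mul, map_pow]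
      have h1 := fv_eval1 (hP i) hy
      have h2 : fv v x ^ i ≤ fv v x ^ (P.natDegree - 1) := pow_le_pow_right₀ hx.le (by omega)
      have h3 := (fv v).nonneg ((P.coeff i).eval y)
      have h4 : 0 ≤ fv v x ^ i := pow_nonneg ((fv v).nonneg x) i
      nlinarith
    have hlt : fv v x ^ (P.natDegree - 1) < fv v x ^ P.natDegree :=
      pow_lt_pow_right₀ hx (by omega)
    refine le_antisymm ?_ ?_
    · refine (fv_na v _ _).trans (max_le (hlow.trans hlt.le) htop.le)
    · by_contra hcon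
      rw [not_le] at hcon
      have e : (P.coeff P.natDegree).eval y * x ^ P.natDegree =
          (∑ i ∈ range P.natDegree, (P.coeff i).eval y * x ^ i +
            (P.coeff P.natDegree).eval y * x ^ P.natDegree) +
          -(∑ i ∈ range P.natDegree, (P.coeff i).eval y * x ^ i) := by ring
      have h5 : fv v ((P.coeff P.natDegree).eval y * x ^ P.natDegree) <
          fv v x ^ P.natDegree := by
        conv_lhs => rw [e]
        refine (fv_na v _ _).trans_lt (max_lt hcon ?_)
        rw [(fv v).map_neg]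
        exact hlow.trans_lt hlt
      rw [htop] at h5
      exact lt_irrefl _ h5

theorem stmO : StmO := by
  classical
  intro K _ _ F G hF hG hFG hd
  obtain ⟨A, B, R, hR, hAB⟩ := bezout F G hF hG hFG hd
  have hlF : F.leadingCoeff ≠ 0 := leadingCoeff_ne_zero.2 hF.ne_zero
  have hlG : G.leadingCoeff ≠ 0 := leadingCoeff_ne_zero.2 hG.ne_zero
  obtain ⟨C1, hC1, h1⟩ := height_eval R
  obtain ⟨C2, hC2, h2⟩ := height_eval F.leadingCoeff
  obtain ⟨C3, hC3, h3⟩ := height_eval G.leadingCoeff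
  obtain ⟨B0, hB0⟩ : ∃ B0 : Finset (Pr K), ∀ v ∉ B0, In2 v A ∧ In2 v B ∧ In2 v F ∧ In2 v G := by
    refine ⟨(fin_In2 A).toFinset ∪ (fin_In2 B).toFinset ∪ (fin_In2 F).toFinset ∪
      (fin_In2 G).toFinset, fun v hv => ?_⟩
    simp only [Finset.mem_union, Set.Finite.mem_toFinset, Set.mem_ofPred_eq, not_or, not_not] at hv
    exact ⟨hv.1.1.1, hv.1.1.2, hv.1.2, hv.2⟩
  have hS0 : 0 ≤ ∑ v ∈ B0, Real.log (Nv v) := Finset.sum_nonneg fun v _ => (log_Nv_pos v).le
  refine ⟨R * F.leadingCoeff * G.leadingCoeff, ∑ v ∈ B0, Real.log (Nv v) + 1 + C1 + C2 + C3,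
    mul_ne_zero (mul_ne_zero hR hlF) hlG, by positivity, fun y hy => ?_⟩
  rw [eval_mul, eval_mul] at hy
  have hyR : R.eval y ≠ 0 := left_ne_zero_of_mul (left_ne_zero_of_mul hy)
  have hyF : F.leadingCoeff.eval y ≠ 0 := right_ne_zero_of_mul (left_ne_zero_of_mul hy)
  have hyG : G.leadingCoeff.eval y ≠ 0 := right_ne_zero_of_mul hy
  obtain ⟨T1, hT1⟩ : ∃ T : Finset (Pr K), ∀ v, v ∈ T ↔ 1 < fv v y :=
    ⟨(fin_big y).toFinset, fun v => by simp⟩
  obtain ⟨T2, hT2⟩ : ∃ T : Finset (Pr K), ∀ v, v ∈ T ↔ fv v (R.eval y) < 1 :=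
    ⟨(fin_small hyR).toFinset, fun v => by simp⟩
  obtain ⟨T3, hT3⟩ : ∃ T : Finset (Pr K), ∀ v, v ∈ T ↔ fv v (F.leadingCoeff.eval y) < 1 :=
    ⟨(fin_small hyF).toFinset, fun v => by simp⟩
  obtain ⟨T4, hT4⟩ : ∃ T : Finset (Pr K), ∀ v, v ∈ T ↔ fv v (G.leadingCoeff.eval y) < 1 :=
    ⟨(fin_small hyG).toFinset, fun v => by simp⟩
  refine ⟨B0 ∪ T1 ∪ T2 ∪ T3 ∪ T4, ?_, fun v hv => ?_⟩
  · have hun : ∀ S T : Finset (Pr K), ∑ v ∈ S ∪ T, Real.log (Nv v) ≤
        ∑ v ∈ S, Real.log (Nv v) + ∑ v ∈ T, Real.log (Nv v) := by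
      intro S T
      rw [← Finset.sum_union_inter]
      have : 0 ≤ ∑ v ∈ S ∩ T, Real.log (Nv v) :=
        Finset.sum_nonneg fun v _ => (log_Nv_pos v).le
      linarith
    have e1 := hun (B0 ∪ T1 ∪ T2 ∪ T3) T4
    have e2 := hun (B0 ∪ T1 ∪ T2) T3
    have e3 := hun (B0 ∪ T1) T2
    have e4 := hun B0 T1
    have f1 := sum_big y T1 fun v hv => (hT1 v).1 hv
    have f2 := sum_small hyR T2 fun v hv => (hT2 v).1 hv
    have f3 := sum_small hyF T3 fun v hv => (hT3 v).1 hv
    have f4 := sum_small hyG T4 fun v hv => (hT4 v).1 hv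
    have g2 := h1 y
    have g3 := h2 y
    have g4 := h3 y
    have hh := zero_le_logHeight₁ y
    rw [hr_aff]
    nlinarith
  · simp only [Finset.mem_union, not_or, hT1, hT2, hT3, hT4, not_lt] at hv
    obtain ⟨⟨⟨⟨hv0, hv1⟩, hv2⟩, hv3⟩, hv4⟩ := hv
    obtain ⟨iA, iB, iF, iG⟩ := hB0 v hv0
    refine ⟨hv1, fun x => ⟨fun hx => ?_, fun hx => ?_⟩⟩
    · rintro ⟨hFx, hGx⟩
      have e := congrArg (fun P : K[X][X] => P.evalEval y x) hAB
      simp only [evalEval_add, evalEval_mul, evalEval_C] at e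
      have h5 : fv v (R.eval y) < 1 := by
        rw [← e]
        exact (fv_na v _ _).trans_lt (max_lt (fv_mul_lt (fv_eval2 iA hv1 hx) hFx)
          (fv_mul_lt (fv_eval2 iB hv1 hx) hGx))
      linarith
    · exact ⟨fv_top iF hv1 (le_antisymm (fv_eval1 (iF _) hv1) hv3) hx,
        fv_top iG hv1 (le_antisymm (fv_eval1 (iG _) hv1) hv4) hx⟩

end Pool.Agent.N34.SUO

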