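import Mathlib
import Pool.Agent.Results.MP_a0e599_al.AllFields

/-! Helper lemmas for `Pool/Agent/Results/MP_071b90_al/Disproof.lean`. -/

set_option autoImplicit false

namespace Pool.Agent.N34.ExtAnn

open ExteriorAlgebra
open Pool.Agent.Results.MP_a0e599_al.Main

universe u v

section defs

variable {K : Type u} [Field K] {V : Type v} [AddCommGroup V] [Module K V]

/-- The degree `r` part of the principal ideal generated by `f`. -/
noncomputable def idealPart (f : ExteriorAlgebra K V) (r : ℕ) :
    Submodule K (ExteriorAlgebra K V) :=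
  ⋀[K]^r V ⊓ (Ideal.span {f}).restrictScalars K

/-- The degree `r` part of the annihilator `{g | g ∧ f = 0}`. -/
noncomputable def annPart (f : ExteriorAlgebra K V) (r : ℕ) :
    Submodule K (ExteriorAlgebra K V) :=
  ⋀[K]^r V ⊓ LinearMap.ker (LinearMap.mulRight K f)

end defs

section proofs

variable {K : Type u} [Field K] {n : ℕ} {V : Type v} [AddCommGroup V] [Module K V]
  {e : Module.Basis (Fin n) K V}

lemma finrank_split {W : Type*} {W' : Type*} [AddCommGroup W] [Module K W] [AddCommGroup W']
    [Module K W'] (p : Submodule K W) [Module.Finite K p] (T : W →ₗ[K] W') :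
    Module.finrank K (p ⊓ LinearMap.ker T : Submodule K W) + Module.finrank K (p.map T) =
      Module.finrank K p := by
  have h1 := LinearMap.finrank_range_add_finrank_ker (T.domRestrict p)
  rw [LinearMap.range_domRestrict] at h1
  have h2 : Module.finrank K (LinearMap.ker (T.domRestrict p)) =
      Module.finrank K (p ⊓ LinearMap.ker T : Submodule K W) := by
    have h3 : (LinearMap.ker (T.domRestrict p)).map p.subtype = p ⊓ LinearMap.ker T := by
      rw [LinearMap.ker_domRestrict, Submodule.map_comap_subtype]
    rw [← h3]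
    exact (LinearEquiv.finrank_eq
      (Submodule.equivMapOfInjective p.subtype (Submodule.injective_subtype p) _))
  omega

lemma mono_mul_of_not_disjoint {S T : Finset (Fin n)} (h : ¬ Disjoint S T) :
    mono e S * mono e T = 0 := by
  have := ExteriorAlgebra.basis_mul_of_not_disjoint (e)
    (Set.powersetCard.ofCard (s := S) rfl) (Set.powersetCard.ofCard (s := T) rfl) h
  change BB e S * BB e T = 0 at this
  rwa [BB_apply, BB_apply] at this

lemma mono_mul_of_disjoint {S T : Finset (Fin n)} (h : Disjoint S T) :
    mono e S * mono e T ≠ 0 := by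
  have := ExteriorAlgebra.basis_mul_of_disjoint (e)
    (Set.powersetCard.ofCard (s := S) rfl) (Set.powersetCard.ofCard (s := T) rfl) h
  change BB e S * BB e T = _ at this
  rw [BB_apply, BB_apply] at this
  rw [this]
  intro h0
  rcases Int.units_eq_one_or (Set.powersetCard.permOfDisjoint
    (s := Set.powersetCard.ofCard (s := S) rfl)
    (t := Set.powersetCard.ofCard (s := T) rfl) h).sign with h1 | h1
  · rw [h1, one_smul] at h0
    exact (BB e).ne_zero _ h0
  · rw [h1, Units.neg_smul, one_smul, neg_eq_zero] at h0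
    exact (BB e).ne_zero _ h0

lemma form_mul {d : ℕ} (c : Finset (Fin n) → K) (S : Finset (Fin n)) (hS : S.card = d) :
    mono e Sᶜ * form e d c = c S • (mono e Sᶜ * mono e S) := by
  unfold form
  rw [Finset.mul_sum, Finset.sum_eq_single S]
  · rw [mul_smul_comm]
  · intro T hT hne
    rw [Finset.mem_powersetCard] at hT
    rw [mul_smul_comm, mono_mul_of_not_disjoint, smul_zero]
    intro hd
    apply hne
    have h1 : T ⊆ S := by
      intro i hi
      by_contra h
      exact Finset.disjoint_left.1 hd (Finset.mem_compl.2 h) hi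
    exact Finset.eq_of_subset_of_card_le h1 (by omega)
  · intro h
    exact absurd (Finset.mem_powersetCard.2 ⟨Finset.subset_univ _, hS⟩) h

lemma mem_mul {r d : ℕ} {x f : ExteriorAlgebra K V} (hx : x ∈ ⋀[K]^r V) (hf : f ∈ ⋀[K]^d V) :
    x * f ∈ ⋀[K]^(r + d) V := by
  unfold exteriorPower at *
  rw [pow_add]
  exact Submodule.mul_mem_mul hx hf

/-- The dimension of the annihilator in degree `r = n - 2 d` exceeds `Δ`. -/
lemma ann_lower {d r : ℕ} (e : Module.Basis (Fin n) K V) (hn : n = r + 2 * d)
    (c : Finset (Fin n) → K) (S : Finset (Fin n)) (hS : S.card = d) (hc : c S ≠ 0)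
    (hsq : form e d c * form e d c = 0) :
    n.choose r + 1 ≤ Module.finrank K (annPart (form e d c) r) + n.choose (r + d) := by
  have : Module.Finite K V := Module.Finite.of_basis e
  have : Module.Free K V := Module.Free.of_basis e
  have hV : Module.finrank K V = n := by
    rw [Module.finrank_eq_card_basis e, Fintype.card_fin]
  have hr : ∀ j : ℕ, Module.finrank K (⋀[K]^j V) = n.choose j := by
    intro j
    rw [exteriorPower.finrank_eq, hV]
  set f := form e d c with hf
  have hfm : f ∈ ⋀[K]^d V := form_mem d c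
  set T := LinearMap.mulRight K f with hT
  have h1 := finrank_split (K := K) (⋀[K]^r V) T
  have h2 := finrank_split (K := K) (⋀[K]^(r + d) V) T
  rw [hr] at h1 h2
  have h3 : Module.finrank K ((⋀[K]^r V).map T) ≤
      Module.finrank K ((⋀[K]^(r + d) V) ⊓ LinearMap.ker T : Submodule K _) := by
    apply Submodule.finrank_mono
    rintro _ ⟨x, hx, rfl⟩
    refine ⟨mem_mul hx hfm, ?_⟩
    change x * f * f = 0
    rw [mul_assoc, hsq, mul_zero]
  have h4 : 1 ≤ Module.finrank K ((⋀[K]^(r + d) V).map T) := by
    have hne : T (mono e Sᶜ) ≠ 0 := by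
      change mono e Sᶜ * f ≠ 0
      rw [hf, form_mul c S hS]
      exact smul_ne_zero hc (mono_mul_of_disjoint disjoint_compl_left)
    have hmem : mono e Sᶜ ∈ ⋀[K]^(r + d) V := by
      have := mono_mem (e := e) Sᶜ
      rwa [Finset.card_compl, Fintype.card_fin, hS, show n - d = r + d by omega] at this
    have : Nontrivial ((⋀[K]^(r + d) V).map T) :=
      ⟨⟨⟨T (mono e Sᶜ), _, hmem, rfl⟩, 0, fun h => hne (congrArg Subtype.val h)⟩⟩
    exact Module.finrank_pos
  change n.choose r + 1 ≤ Module.finrank K (⋀[K]^r V ⊓ LinearMap.ker T : Submodule K _) +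
    n.choose (r + d)
  omega

/-- The dimension of the principal ideal in degree `i + d` is at most `binom(n, i)`. -/
lemma ideal_upper {d i : ℕ} (e : Module.Basis (Fin n) K V) {f : ExteriorAlgebra K V}
    (hf : f ∈ ⋀[K]^d V) : Module.finrank K (idealPart f (i + d)) ≤ n.choose i := by
  have : Module.Finite K V := Module.Finite.of_basis e
  have : Module.Free K V := Module.Free.of_basis e
  have hV : Module.finrank K V = n := by
    rw [Module.finrank_eq_card_basis e, Fintype.card_fin]
  have h1 : idealPart f (i + d) ≤ (⋀[K]^i V).map (LinearMap.mulRight K f) := by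
    rintro x ⟨hx, hx'⟩
    obtain ⟨g, rfl⟩ := Ideal.mem_span_singleton'.1 hx'
    have h2 := DirectSum.coe_decompose_mul_of_right_mem_of_le (fun i : ℕ => ⋀[K]^i V) (a := g)
      hf (Nat.le_add_left d i)
    rw [DirectSum.decompose_of_mem_same (fun i : ℕ => ⋀[K]^i V) hx] at h2
    rw [Nat.add_sub_cancel] at h2
    exact ⟨_, SetLike.coe_mem _, h2.symm⟩
  refine (Submodule.finrank_mono h1).trans ((Submodule.finrank_map_le _ _).trans ?_)
  rw [exteriorPower.finrank_eq, hV]

lemma choose_ineq {d : ℕ} (hd : 3 < d) :
    (3 * d + 2).choose 2 ≤ (3 * d + 2).choose (d + 2) - (3 * d + 2).choose d ∧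
      (3 * d + 2).choose d ≤ (3 * d + 2).choose (d + 2) := by
  have h1 := Pool.Agent.Results.MP_a0e599_al.AllFields.choose_lt_of_lt_half (3 * d + 2)
    (a := 2) (b := d) (by omega) (by omega)
  have h2 := Pool.Agent.Results.MP_a0e599_al.AllFields.choose_lt_of_lt_half (3 * d + 2)
    (a := d + 1) (b := d + 2) (by omega) (by omega)
  have h3 := Nat.choose_succ_right_eq (3 * d + 2) d
  have h4 : 3 * d + 2 - d = 2 * (d + 1) := by omega
  rw [h4] at h3
  have h5 : (3 * d + 2).choose (d + 1) = 2 * (3 * d + 2).choose d := by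
    apply Nat.eq_of_mul_eq_mul_right (Nat.succ_pos d)
    rw [Nat.succ_eq_add_one, h3]
    ring
  omega


end proofs

end Pool.Agent.N34.ExtAnn
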