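import Pool.Agent.N804.GM.Stm

/-! # The Poisson-Jensen inequality in the half-plane, from the disc -/

set_option autoImplicit false

open Filter Topology Set MeasureTheory
open Pool.Agent.N804.GM

namespace Pool.Agent.N34.GM2

/-- the Moebius map -/
noncomputable def mob (a : ℝ) (w : ℂ) : ℂ := a * ((1 - w) / (1 + w))

lemma one_add_ne {w : ℂ} (hw : w ≠ -1) : 1 + w ≠ 0 := by
  intro h
  apply hw
  linear_combination h

lemma mob_re (a : ℝ) {w : ℂ} (hw : w ≠ -1) :
    (mob a w).re = a * ((1 - ‖w‖ ^ 2) / ‖1 + w‖ ^ 2) := by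
  have h1 := one_add_ne hw
  have h2 : Complex.normSq (1 + w) ≠ 0 := (map_ne_zero _).2 h1
  unfold mob
  rw [Complex.re_ofReal_mul, Complex.div_re, Complex.sq_norm, Complex.sq_norm]
  congr 1
  rw [← add_div]
  congr 1
  rw [Complex.normSq_apply w]
  simp only [Complex.sub_re, Complex.one_re, Complex.add_re, Complex.sub_im, Complex.one_im,
    Complex.add_im]
  ring

lemma mob_norm {a : ℝ} (ha : 0 < a) {w : ℂ} (hw : ‖w‖ ≤ 1) :
    ‖mob a w‖ ≤ 2 * a * (1 / ‖1 + w‖) := by
  unfold mob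
  rw [norm_mul, norm_div, Complex.norm_real, Real.norm_of_nonneg ha.le]
  have h1 : ‖1 - w‖ ≤ 2 := by
    refine (norm_sub_le _ _).trans ?_
    rw [norm_one]
    linarith
  calc a * (‖1 - w‖ / ‖1 + w‖) ≤ a * (2 / ‖1 + w‖) := by gcongr
    _ = _ := by ring

lemma mob_an (a : ℝ) {w : ℂ} (hw : w ≠ -1) : AnalyticAt ℂ (mob a) w := by
  unfold mob
  exact analyticAt_const.mul ((analyticAt_const.sub analyticAt_id).div
    (analyticAt_const.add analyticAt_id) (one_add_ne hw))

lemma mob_deriv {a : ℝ} (ha : 0 < a) {w : ℂ} (hw : w ≠ -1) : deriv (mob a) w ≠ 0 := by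
  have h1 := one_add_ne hw
  have hn : HasDerivAt (fun w : ℂ => 1 - w) (-1) w := (hasDerivAt_id w).const_sub 1
  have hd : HasDerivAt (fun w : ℂ => 1 + w) 1 w := (hasDerivAt_id w).const_add 1
  have h2 : HasDerivAt (mob a) (a * ((-1 * (1 + w) - (1 - w) * 1) / (1 + w) ^ 2)) w :=
    (hn.div hd h1).const_mul (a : ℂ)
  rw [h2.deriv]
  have e : -1 * (1 + w) - (1 - w) * 1 = -2 := by ring
  rw [e]
  refine mul_ne_zero (by exact_mod_cast ha.ne') (div_ne_zero (by norm_num) (pow_ne_zero _ h1))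

/-- the inverse map -/
noncomputable def inv' (a : ℝ) (z : ℂ) : ℂ := (a - z) / (a + z)

lemma add_ne {a : ℝ} (ha : 0 < a) {z : ℂ} (hz : 0 < z.re) : (a : ℂ) + z ≠ 0 := by
  intro h
  have := congrArg Complex.re h
  simp at this
  linarith

lemma inv_ne {a : ℝ} (ha : 0 < a) {z : ℂ} (hz : 0 < z.re) : inv' a z ≠ -1 := by
  intro h
  unfold inv' at h
  rw [div_eq_iff (add_ne ha hz)] at h
  have h1 : (2 : ℂ) * a = 0 := by linear_combination h
  have h2 : (a : ℂ) ≠ 0 := by exact_mod_cast ha.ne'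
  exact (mul_ne_zero two_ne_zero h2) h1

lemma mob_inv {a : ℝ} (ha : 0 < a) {z : ℂ} (hz : 0 < z.re) : mob a (inv' a z) = z := by
  have h1 := add_ne ha hz
  have h2 : (a : ℂ) ≠ 0 := by exact_mod_cast ha.ne'
  have h3 := one_add_ne (inv_ne ha hz)
  unfold mob
  rw [mul_div_assoc', div_eq_iff h3]
  unfold inv'
  field_simp
  ring

lemma inv_norm {a : ℝ} (ha : 0 < a) {z : ℂ} (hz : 0 < z.re) : ‖inv' a z‖ < 1 := by
  have h1 := norm_pos_iff.2 (add_ne ha hz)
  unfold inv'
  rw [norm_div, div_lt_one h1]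
  refine lt_of_pow_lt_pow_left₀ 2 (norm_nonneg _) ?_
  rw [Complex.sq_norm, Complex.sq_norm, Complex.normSq_apply, Complex.normSq_apply]
  simp only [Complex.sub_re, Complex.ofReal_re, Complex.add_re, Complex.sub_im,
    Complex.add_im, Complex.ofReal_im]
  nlinarith [mul_pos ha hz]

/-- on the circle -/
lemma mob_exp (a y : ℝ) (ha : 0 < a) :
    mob a (Complex.exp (((-2 * Real.arctan (y / a) : ℝ) : ℂ) * Complex.I)) = y * Complex.I := by
  obtain ⟨t, ht⟩ : ∃ t, t = Real.arctan (y / a) := ⟨_, rfl⟩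
  rw [← ht]
  have hc : 0 < Real.cos t := by
    rw [ht]
    exact Real.cos_arctan_pos _
  have htan : Real.tan t = y / a := by rw [ht, Real.tan_arctan]
  have hs : a * Real.sin t = y * Real.cos t := by
    rw [Real.tan_eq_sin_div_cos, div_eq_div_iff hc.ne' ha.ne'] at htan
    linarith
  have hcC : (Real.cos t : ℂ) ≠ 0 := by exact_mod_cast hc.ne'
  have e1 : Complex.exp (((-2 * t : ℝ) : ℂ) * Complex.I) =
      (Real.cos t - Real.sin t * Complex.I) ^ 2 := by
    have e2 : Complex.exp (((-2 * t : ℝ) : ℂ) * Complex.I) =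
        Complex.exp (((-t : ℝ) : ℂ) * Complex.I) ^ 2 := by
      rw [← Complex.exp_nat_mul]
      congr 1
      push_cast
      ring
    rw [e2, Complex.exp_mul_I, ← Complex.ofReal_cos, ← Complex.ofReal_sin, Real.cos_neg,
      Real.sin_neg]
    push_cast
    ring
  have h1 : (Real.cos t : ℂ) ^ 2 + (Real.sin t : ℂ) ^ 2 = 1 := by
    exact_mod_cast Real.cos_sq_add_sin_sq t
  have hI := Complex.I_sq
  have e3 : (1 : ℂ) + (Real.cos t - Real.sin t * Complex.I) ^ 2 =
      2 * Real.cos t * (Real.cos t - Real.sin t * Complex.I) := by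
    linear_combination (Real.sin t : ℂ) ^ 2 * hI - h1
  have e4 : (1 : ℂ) - (Real.cos t - Real.sin t * Complex.I) ^ 2 =
      2 * Real.sin t * Complex.I * (Real.cos t - Real.sin t * Complex.I) := by
    linear_combination (Real.sin t : ℂ) ^ 2 * hI - h1
  have h5 : (Real.cos t : ℂ) - Real.sin t * Complex.I ≠ 0 := by
    intro h
    have := congrArg Complex.re h
    simp only [Complex.sub_re, Complex.ofReal_re, Complex.re_ofReal_mul, Complex.I_re, mul_zero,
      sub_zero, Complex.zero_re] at this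
    linarith
  have hsC : (a : ℂ) * Real.sin t = y * Real.cos t := by exact_mod_cast hs
  unfold mob
  rw [e1, e3, e4, mul_div_assoc', div_eq_iff (mul_ne_zero (mul_ne_zero two_ne_zero hcC) h5)]
  linear_combination 2 * Complex.I * (Real.cos t - Real.sin t * Complex.I) * hsC

/-! ### the substitution -/

lemma phi_deriv {a : ℝ} (ha : 0 < a) (y : ℝ) :
    HasDerivAt (fun y : ℝ => -2 * Real.arctan (y / a)) (-(2 * a / (a ^ 2 + y ^ 2))) y := by
  have h1 : HasDerivAt (fun y : ℝ => y / a) (1 / a) y := (hasDerivAt_id y).div_const a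
  have h2 := (h1.arctan).const_mul (-2)
  refine h2.congr_deriv ?_
  have h3 : a ^ 2 + y ^ 2 ≠ 0 := by positivity
  have h0 : a ≠ 0 := ha.ne'
  have h4 : 1 + (y / a) ^ 2 = (a ^ 2 + y ^ 2) / a ^ 2 := by
    field_simp
  rw [h4]
  field_simp

lemma phi_image {a : ℝ} (ha : 0 < a) :
    (fun y : ℝ => -2 * Real.arctan (y / a)) '' univ = Ioo (-Real.pi) Real.pi := by
  ext θ
  rw [image_univ, mem_range, mem_Ioo]
  constructor
  · rintro ⟨y, rfl⟩
    have h1 := Real.arctan_lt_pi_div_two (y / a)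
    have h2 := Real.neg_pi_div_two_lt_arctan (y / a)
    constructor <;> linarith
  · rintro ⟨h1, h2⟩
    refine ⟨a * Real.tan (-θ / 2), ?_⟩
    rw [mul_div_cancel_left₀ _ ha.ne', Real.arctan_tan (by linarith) (by linarith)]
    ring

lemma phi_inj {a : ℝ} (ha : 0 < a) : InjOn (fun y : ℝ => -2 * Real.arctan (y / a)) univ := by
  intro y _ z _ h
  simp only at h
  have h1 : Real.arctan (y / a) = Real.arctan (z / a) := by linarith
  have h2 := Real.arctan_injective h1
  rwa [div_left_inj' ha.ne'] at h2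

/-- the integrand -/
lemma integrand {a : ℝ} (ha : 0 < a) (f : ℂ → ℂ) (y : ℝ) :
    |(-(2 * a / (a ^ 2 + y ^ 2)))| • (fun θ : ℝ =>
      Real.log ‖f (mob a (Complex.exp (θ * Complex.I)))‖) (-2 * Real.arctan (y / a)) =
    2 * a * (Real.log ‖f (y * Complex.I)‖ / (a ^ 2 + y ^ 2)) := by
  have h1 : 0 ≤ 2 * a / (a ^ 2 + y ^ 2) := by positivity
  simp only
  rw [abs_neg, abs_of_nonneg h1, mob_exp a y ha, smul_eq_mul]
  ring

theorem main (h : S_DISC) : S_PJ := by
  intro f A a ha hf hbd hfa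
  have hne : ∀ w ∈ Metric.closedBall (0 : ℂ) 1 \ {-1}, w ≠ -1 ∧ ‖w‖ ≤ 1 := by
    intro w hw
    rw [Set.mem_sdiff, Metric.mem_closedBall, dist_zero_right, mem_singleton_iff] at hw
    exact ⟨hw.2, hw.1⟩
  have hre : ∀ w ∈ Metric.closedBall (0 : ℂ) 1 \ {-1}, 0 ≤ (mob a w).re := by
    intro w hw
    obtain ⟨h1, h2⟩ := hne w hw
    rw [mob_re a h1]
    have h3 : ‖w‖ ^ 2 ≤ 1 := pow_le_one₀ (norm_nonneg _) h2
    have : 0 ≤ 1 - ‖w‖ ^ 2 := by linarith
    positivity
  have hlogA : 0 ≤ Real.log (1 + 2 * a) := Real.log_nonneg (by linarith)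
  obtain ⟨hint, hsum⟩ := h (fun w => f (mob a w)) (|A| * (1 + Real.log (1 + 2 * a))) (by
      intro w hw
      exact AnalyticAt.fun_comp (hf _ (hre w hw)) (mob_an a (hne w hw).1)) (by
      intro w hw
      obtain ⟨h1, h2⟩ := hne w hw
      refine (hbd _ (hre w hw)).trans (Real.exp_le_exp.2 ?_)
      have h3 := mob_norm ha h2
      have h4 : 0 < ‖1 + w‖ := norm_pos_iff.2 (one_add_ne h1)
      obtain ⟨u, hu⟩ : ∃ u, u = 1 / ‖1 + w‖ := ⟨_, rfl⟩
      have hu0 : 0 ≤ u := by rw [hu]; positivity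
      rw [← hu] at h3 ⊢
      have h5 : Real.log (1 + ‖mob a w‖) ≤ Real.log (1 + 2 * a) + Real.log (1 + u) := by
        rw [← Real.log_mul (by positivity) (by positivity)]
        apply Real.log_le_log (by positivity)
        nlinarith
      have h6 : 0 ≤ Real.log (1 + u) := Real.log_nonneg (by linarith)
      have h7 : 0 ≤ Real.log (1 + ‖mob a w‖) := Real.log_nonneg (by
        have := norm_nonneg (mob a w)
        linarith)
      calc A * (1 + Real.log (1 + ‖mob a w‖)) ≤ |A| * (1 + Real.log (1 + ‖mob a w‖)) := by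
            gcongr
            exact le_abs_self A
        _ ≤ |A| * ((1 + Real.log (1 + 2 * a)) * (1 + Real.log (1 + u))) := by
            gcongr
            nlinarith [mul_nonneg hlogA h6]
        _ = _ := by ring) (by
      have : mob a 0 = a := by unfold mob; simp
      simp only [this]
      exact hfa)
  have hpi := Real.pi_pos
  have hIoo : IntegrableOn (fun θ : ℝ => Real.log ‖f (mob a (Complex.exp (θ * Complex.I)))‖)
      ((fun y : ℝ => -2 * Real.arctan (y / a)) '' univ) := by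
    rw [phi_image ha]
    rw [intervalIntegrable_iff_integrableOn_Ioo_of_le (by linarith)] at hint
    exact hint
  have hd : ∀ y ∈ (univ : Set ℝ), HasDerivWithinAt (fun y : ℝ => -2 * Real.arctan (y / a))
      (-(2 * a / (a ^ 2 + y ^ 2))) univ y := fun y _ => (phi_deriv ha y).hasDerivWithinAt
  have h2a : 2 * a ≠ 0 := by positivity
  constructor
  · have h1 := (integrableOn_image_iff_integrableOn_abs_deriv_smul MeasurableSet.univ hd
      (phi_inj ha) _).1 hIoo
    rw [integrableOn_univ] at h1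
    have h2 : (fun y : ℝ => |(-(2 * a / (a ^ 2 + y ^ 2)))| • (fun θ : ℝ =>
        Real.log ‖f (mob a (Complex.exp (θ * Complex.I)))‖) (-2 * Real.arctan (y / a))) =
        fun y : ℝ => 2 * a * (Real.log ‖f (y * Complex.I)‖ / (a ^ 2 + y ^ 2)) :=
      funext fun y => integrand ha f y
    rw [h2] at h1
    exact (integrable_const_mul_iff (isUnit_iff_ne_zero.2 h2a) _).1 h1
  · intro S hS
    have hinj : InjOn (inv' a) S := by
      intro z hz w hw hzw
      rw [← mob_inv ha (hS z hz).1, hzw, mob_inv ha (hS w hw).1]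
    have key := hsum (S.image (inv' a)) (by
      intro w hw
      rw [Finset.mem_image] at hw
      obtain ⟨z, hz, rfl⟩ := hw
      obtain ⟨h1, h2⟩ := hS z hz
      exact ⟨inv_norm ha h1, by simp only [mob_inv ha h1]; exact h2⟩)
    rw [Finset.sum_image hinj] at key
    have h0 : mob a 0 = a := by unfold mob; simp
    simp only [h0] at key
    have e1 : ∑ z ∈ S, (analyticOrderNatAt f z : ℝ) * Real.log (‖(a : ℂ) + z‖ / ‖(a : ℂ) - z‖) =
        ∑ z ∈ S, (analyticOrderNatAt (fun w => f (mob a w)) (inv' a z) : ℝ) *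
          Real.log (1 / ‖inv' a z‖) := by
      refine Finset.sum_congr rfl fun z hz => ?_
      obtain ⟨h1, h2⟩ := hS z hz
      have h3 := inv_ne ha h1
      have h4 := analyticOrderAt_comp_of_deriv_ne_zero (f := f) (mob_an a h3) (mob_deriv ha h3)
      have h5 : analyticOrderNatAt (fun w => f (mob a w)) (inv' a z) = analyticOrderNatAt f z := by
        unfold analyticOrderNatAt
        have e : (fun w => f (mob a w)) = f ∘ mob a := rfl
        rw [e, h4, mob_inv ha h1]
      rw [h5]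
      congr 2
      unfold inv'
      rw [norm_div, one_div_div]
    have e2 : a / Real.pi * ∫ y : ℝ, Real.log ‖f (y * Complex.I)‖ / (a ^ 2 + y ^ 2) =
        1 / (2 * Real.pi) * ∫ θ in (-Real.pi)..Real.pi,
          Real.log ‖f (mob a (Complex.exp (θ * Complex.I)))‖ := by
      rw [intervalIntegral.integral_of_le (by linarith), integral_Ioc_eq_integral_Ioo,
        ← phi_image ha, integral_image_eq_integral_abs_deriv_smul MeasurableSet.univ hd
          (phi_inj ha) (fun θ : ℝ => Real.log ‖f (mob a (Complex.exp (θ * Complex.I)))‖),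
        setIntegral_univ]
      have h2 : (fun y : ℝ => |(-(2 * a / (a ^ 2 + y ^ 2)))| • (fun θ : ℝ =>
          Real.log ‖f (mob a (Complex.exp (θ * Complex.I)))‖) (-2 * Real.arctan (y / a))) =
          fun y : ℝ => 2 * a * (Real.log ‖f (y * Complex.I)‖ / (a ^ 2 + y ^ 2)) :=
        funext fun y => integrand ha f y
      rw [h2, integral_const_mul]
      generalize (∫ y : ℝ, Real.log ‖f (y * Complex.I)‖ / (a ^ 2 + y ^ 2)) = J
      field_simp
    rw [e1, e2]
    exact key

end Pool.Agent.N34.GM2
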