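import Pool.Agent.N212.KS.Stm

/-!
# Project KS, part INV (helper34): an invariant member of a family of closed sets
-/

set_option autoImplicit false

namespace Pool.Agent.N34.KS

open TopologicalSpace

universe u w

theorem t_INV : Pool.Agent.N212.KS.S_INV.{u, w} := by
  intro X G _ _ _ _ F hcl hne hint htr
  have hwf : WellFoundedLT (Closeds X) := inferInstance
  let T : Set (Closeds X) := {Z | F (Z : Set X)}
  obtain ⟨Z₁, hZ₁⟩ := hne
  have hT : T.Nonempty := ⟨⟨Z₁, hcl Z₁ hZ₁⟩, hZ₁⟩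
  obtain ⟨Z₀, hZ₀, hmin⟩ := hwf.wf.has_min T hT
  have key : ∀ Z' : Set X, F Z' → (Z₀ : Set X) ⊆ Z' := by
    intro Z' hZ'
    by_contra hnot
    have hI : F ((Z₀ : Set X) ∩ Z') := hint _ _ hZ₀ hZ'
    refine hmin ⟨(Z₀ : Set X) ∩ Z', hcl _ hI⟩ hI ?_
    refine lt_of_le_of_ne (fun x hx => hx.1) fun he => hnot fun x hx => ?_
    have hx' : x ∈ ((⟨(Z₀ : Set X) ∩ Z', hcl _ hI⟩ : Closeds X) : Set X) := by
      rw [he]
      exact hx
    exact hx'.2
  have h2 : ∀ (g : G) (x : X), x ∈ (Z₀ : Set X) → g • x ∈ (Z₀ : Set X) := by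
    intro g x hx
    have := key _ (htr g⁻¹ _ hZ₀) hx
    simpa using this
  refine ⟨Z₀, hZ₀, fun g x => ⟨fun h => ?_, h2 g x⟩⟩
  have := h2 g⁻¹ _ h
  simpa using this

end Pool.Agent.N34.KS

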