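import Pool.Agent.N906.QP.StmL
import Pool.Agent.N415.QP_DSC

/-!
# QP/DSCG (for helper906): elements of a coset of an ideal in a product of discs with given centres

helper34; a translate of `Pool.Agent.N415.QP.dsc` by an integer near the difference of the centres.
-/

set_option autoImplicit false

namespace Pool.Agent.N34.QP
open NumberField NumberField.InfinitePlace NumberField.mixedEmbedding
open Pool.Agent.N691.RS (approx)

theorem nap_gen (K : Type) [Field K] [NumberField K] (z : InfinitePlace K → ℂ)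
    (hz : ∀ w, w.IsReal → (z w).im = 0) (a : K) (w : InfinitePlace K) :
    ‖w.embedding a - z w‖ = normAtPlace w (mixedEmbedding K a -
      (((fun v => (z v.1).re, fun v => z v.1)) : mixedSpace K)) := by
  by_cases hw : IsReal w
  · rw [normAtPlace_apply_of_isReal hw]
    have e : (mixedEmbedding K a - (((fun v => (z v.1).re, fun v => z v.1)) : mixedSpace K)).1 ⟨w, hw⟩ =
        embedding_of_isReal hw a - (z w).re := rfl
    have e2 : z w = (((z w).re : ℝ) : ℂ) := Complex.ext (by simp) (by simp [hz w hw])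
    rw [e]
    conv_lhs => rw [e2]
    rw [← embedding_of_isReal_apply hw, ← Complex.ofReal_sub, Complex.norm_real]
  · have hw' : IsComplex w := not_isReal_iff_isComplex.mp hw
    rw [normAtPlace_apply_of_isComplex hw']
    rfl

theorem dscg (K : Type) [Field K] [NumberField K] : Pool.Agent.N906.KG.S_DSCG K := by
  classical
  intro z η hz hη
  obtain ⟨c0, hc0, h0⟩ := Pool.Agent.N415.QP.dsc K
  obtain ⟨B, hB, h2⟩ := approx K
  have hd : Module.finrank ℚ K ≠ 0 := Module.finrank_pos.ne'
  set d : ℕ := Module.finrank ℚ K with hdd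
  set M : ℝ := max (2 * B / η) (1 / (2 * η)) with hM
  have hM0 : 0 < M := lt_of_lt_of_le (by positivity) (le_max_left _ _)
  refine ⟨min (c0 * (2 * η) ^ d) ((1 / M) ^ d), lt_min (by positivity) (by positivity), ?_⟩
  intro R 𝔞 t hR h𝔞 hN
  have hR0 : 0 < R := by linarith
  have hN1 : (1 : ℝ) ≤ (Ideal.absNorm 𝔞 : ℝ) := by
    have : Ideal.absNorm 𝔞 ≠ 0 := by
      intro h
      exact h𝔞 (Ideal.absNorm_eq_zero_iff.1 h)
    exact_mod_cast Nat.one_le_iff_ne_zero.2 this
  have hRM : M ≤ R := by
    have h3 : 1 ≤ (1 / M) ^ d * R ^ d :=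
      hN1.trans (hN.trans (mul_le_mul_of_nonneg_right (min_le_right _ _) (by positivity)))
    rw [← mul_pow] at h3
    have h4 : 1 ≤ 1 / M * R := by
      by_contra h5
      push Not at h5
      have h6 : (1 / M * R) ^ d < 1 := pow_lt_one₀ (by positivity) h5 hd
      linarith
    rw [one_div, inv_mul_eq_div, le_div_iff₀ hM0] at h4
    linarith
  have hB2 : 2 * B ≤ η * R := by
    have h3 : 2 * B / η ≤ R := (le_max_left _ _).trans hRM
    rw [div_le_iff₀ hη] at h3
    linarith
  have hR1 : 1 ≤ 2 * η * R := by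
    have h3 : 1 / (2 * η) ≤ R := (le_max_right _ _).trans hRM
    rw [div_le_iff₀ (by positivity)] at h3
    linarith
  -- an integer near the difference of the centres
  set z' : InfinitePlace K → ℂ := fun w => (R : ℂ) * z w - ((3 * (2 * η * R) / 4 : ℝ) : ℂ) with hz'
  have hz1 : ∀ w, w.IsReal → (z' w).im = 0 := by
    intro w hw
    simp only [hz', Complex.sub_im, Complex.mul_im, Complex.ofReal_re, Complex.ofReal_im, hz w hw]
    ring
  obtain ⟨s, hs⟩ := h2 1 0 (((fun v => (z' v.1).re, fun v => z' v.1)) : mixedSpace K) one_ne_zero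
  have hs2 : ∀ w : InfinitePlace K, ‖w.embedding (s : K) - z' w‖ ≤ B := by
    intro w
    rw [nap_gen K z' hz1]
    have h3 := hs w
    have e1 : ((0 + 1 * s : 𝓞 K) : K) = (s : K) := by rw [zero_add, one_mul]
    have e2 : w (((1 : 𝓞 K) : K)) = 1 := by simp
    rw [e1, e2, one_mul] at h3
    rw [← normAtPlace_neg, neg_sub]
    exact h3
  obtain ⟨F, hF, hcard⟩ := h0 (2 * η * R) 𝔞 (t - s) hR1 h𝔞 (by
    refine hN.trans ?_
    calc min (c0 * (2 * η) ^ d) ((1 / M) ^ d) * R ^ d ≤ c0 * (2 * η) ^ d * R ^ d :=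
          mul_le_mul_of_nonneg_right (min_le_left _ _) (by positivity)
      _ = c0 * (2 * η * R) ^ d := by rw [mul_assoc, ← mul_pow])
  refine ⟨F.image fun a => a + s, ?_, ?_⟩
  · intro b hb
    rw [Finset.mem_image] at hb
    obtain ⟨a, ha, rfl⟩ := hb
    obtain ⟨g1, g2⟩ := hF a ha
    refine ⟨?_, fun w => ?_⟩
    · have e : a + s - t = a - (t - s) := by ring
      rw [e]
      exact g1
    · have e : w.embedding ((a + s : 𝓞 K) : K) - (R : ℂ) * z w =
          (w.embedding (a : K) - ((3 * (2 * η * R) / 4 : ℝ) : ℂ)) + (w.embedding (s : K) - z' w) := by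
        have e1 : ((a + s : 𝓞 K) : K) = (a : K) + (s : K) := rfl
        rw [e1, map_add]
        simp only [hz']
        ring
      rw [e]
      refine (norm_add_le _ _).trans ?_
      have g3 := g2 w
      have g4 := hs2 w
      linarith
  · rw [Finset.card_image_of_injective _ (fun a b h => add_right_cancel h)]
    refine le_trans ?_ hcard
    have hN0 : (0 : ℝ) < (Ideal.absNorm 𝔞 : ℝ) := by linarith
    calc min (c0 * (2 * η) ^ d) ((1 / M) ^ d) * (R ^ d / (Ideal.absNorm 𝔞 : ℝ))
        ≤ c0 * (2 * η) ^ d * (R ^ d / (Ideal.absNorm 𝔞 : ℝ)) :=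
          mul_le_mul_of_nonneg_right (min_le_left _ _) (by positivity)
      _ = c0 * ((2 * η * R) ^ d / (Ideal.absNorm 𝔞 : ℝ)) := by
          rw [mul_pow (2 * η) R]
          ring

end Pool.Agent.N34.QP

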